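import Pool.Agent.Q97.UM.Jm

/-!
# The lower half of the Gonek–Hejhal conjecture, and the exact order on the critical line

Let `Jcrit lam T` be the sum of `|ζ'(ρ)| ^ (2 lam)` over the simple zeros `ρ` of zeta on the critical line with
`0 < γ ≤ T`, and `J lam T` the sum over all nontrivial zeros with `0 < γ ≤ T`. Nothing is assumed (no Riemann hypothesis):

* for every real `lam` there is `c > 0` with `Jcrit lam T ≥ c T (log T) ^ ((lam + 1) ^ 2)` for all large `T`; the constant and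
  the threshold are uniform for `lam` in bounded sets, and it is enough to sum over the simple zeros on the critical line at
  distance at least `d / log T` from all other nontrivial zeros, with one absolute constant `d > 0`;
* for `0 < lam < 1` also `Jcrit lam T ≤ C T (log T) ^ ((lam + 1) ^ 2)`, so that the order of `Jcrit` is
  exactly `T (log T) ^ ((lam + 1) ^ 2)`;
* if all nontrivial zeros are simple (the hypothesis in the question), the lower bound of the question holds for every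
  real `lam`: `J lam T ≥ c T (log T) ^ ((lam + 1) ^ 2)`.
-/

open Filter Topology Complex

namespace Pool.Agent.Results.MP_69b2e4_nt.ExactOrder

/-- the nontrivial zeros of zeta with ordinate in `(0, T]` -/
def zeros (T : ℝ) : Set ℂ :=
  {s : ℂ | riemannZeta s = 0 ∧ 0 < s.re ∧ s.re < 1 ∧ 0 < s.im ∧ s.im ≤ T}

/-- the simple ones on the critical line -/
def critSimple (T : ℝ) : Set ℂ := {s : ℂ | s ∈ zeros T ∧ s.re = 1 / 2 ∧ deriv riemannZeta s ≠ 0}

/-- those at distance at least `d / log T` from all other nontrivial zeros -/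
def isolated (d T : ℝ) : Set ℂ :=
  {s : ℂ | s ∈ critSimple T ∧ ∀ ρ : ℂ, riemannZeta ρ = 0 → 0 < ρ.re → ρ.re < 1 → ρ ≠ s →
    d / Real.log T ≤ ‖ρ - s‖}

/-- the simple zeros hypothesis -/
def SZC : Prop := ∀ s : ℂ, riemannZeta s = 0 → 0 < s.re → s.re < 1 → deriv riemannZeta s ≠ 0

/-- the sum of `|ζ'(ρ)| ^ (2 lam)` over the simple zeros on the critical line -/
noncomputable def Jcrit (lam T : ℝ) : ℝ := ∑ᶠ s ∈ critSimple T, ‖deriv riemannZeta s‖ ^ (2 * lam)

/-- the sum of `|ζ'(ρ)| ^ (2 lam)` over the isolated simple zeros on the critical line -/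
noncomputable def Jiso (d lam T : ℝ) : ℝ := ∑ᶠ s ∈ isolated d T, ‖deriv riemannZeta s‖ ^ (2 * lam)

/-- the discrete moment `J_lam (T)` over all nontrivial zeros -/
noncomputable def J (lam T : ℝ) : ℝ := ∑ᶠ s ∈ zeros T, ‖deriv riemannZeta s‖ ^ (2 * lam)

lemma zeros_eq (T : ℝ) : zeros T = H370.zset riemannZeta 0 T := by
  ext s
  simp only [zeros, H370.zset, Set.mem_ofPred_eq]
  tauto

/-- the set of nontrivial zeros up to height `T` is finite -/
theorem zeros_finite (T : ℝ) : (zeros T).Finite := by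
  rw [zeros_eq]
  exact H370.zeta_zeros_finite T

theorem critSimple_finite (T : ℝ) : (critSimple T).Finite := (zeros_finite T).subset fun _ hs => hs.1

theorem isolated_finite (d T : ℝ) : (isolated d T).Finite := (critSimple_finite T).subset fun _ hs => hs.1

lemma J_ge (lam T : ℝ) : Jcrit lam T ≤ J lam T := by
  unfold Jcrit J
  rw [finsum_mem_eq_finite_toFinset_sum _ (critSimple_finite T), finsum_mem_eq_finite_toFinset_sum _ (zeros_finite T)]
  refine Finset.sum_le_sum_of_subset_of_nonneg ?_ fun s _ _ => by positivity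
  intro s hs
  rw [Set.Finite.mem_toFinset] at hs ⊢
  exact hs.1

lemma Jcrit_ge (d lam T : ℝ) : Jiso d lam T ≤ Jcrit lam T := by
  unfold Jcrit Jiso
  rw [finsum_mem_eq_finite_toFinset_sum _ (critSimple_finite T), finsum_mem_eq_finite_toFinset_sum _ (isolated_finite d T)]
  refine Finset.sum_le_sum_of_subset_of_nonneg ?_ fun s _ _ => by positivity
  intro s hs
  rw [Set.Finite.mem_toFinset] at hs ⊢
  exact hs.1

/-- The main lower bound. -/
theorem lower : ∃ d : ℝ, 0 < d ∧ ∀ A : ℝ, 0 < A → ∃ c : ℝ, 0 < c ∧ ∃ T₀ : ℝ, ∀ T : ℝ, T₀ ≤ T →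
    ∀ lam : ℝ, |lam| ≤ A → c * (T * Real.log T ^ ((lam + 1) ^ 2)) ≤ Jiso d lam T := by
  obtain ⟨d, hd, hd1, h⟩ := Pool.Agent.Q97.UM.J_low
  refine ⟨d / 2, by positivity, fun A hA => ?_⟩
  obtain ⟨c, hc, h1⟩ := h (max A 1) (le_max_right _ _)
  set K : ℝ := 2 ^ ((A + 1) ^ 2) with hK
  have hK0 : 0 < K := by positivity
  refine ⟨c / (2 * K), by positivity, ?_⟩
  have h' := (tendsto_id.atTop_div_const (show (0:ℝ) < 2 by norm_num)).eventually h1
  rw [← Filter.eventually_atTop]
  filter_upwards [h', Real.tendsto_log_atTop.eventually_ge_atTop 4, eventually_ge_atTop 40] with T h2 h3 h4 lam hlam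
  simp only [id] at h2
  have h5 := h2 lam (hlam.trans (le_max_left _ _))
  have hT0 : 0 < T := by linarith
  have hl2 : 0 ≤ Real.log 2 := Real.log_nonneg (by norm_num)
  have hl2' : Real.log 2 ≤ 1 := by linarith [Real.log_two_lt_d9]
  have hLL' : Real.log (T / 2) = Real.log T - Real.log 2 := Real.log_div hT0.ne' (by norm_num)
  have hhalf : Real.log T / 2 ≤ Real.log (T / 2) := by rw [hLL']; linarith
  have hL0 : 0 < Real.log (T / 2) := by linarith
  -- the sum over the dyadic interval is a part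
  have hsub : ∑ s ∈ Pool.Agent.Q97.UM.ZI d (T / 2), ‖deriv riemannZeta s‖ ^ (2 * lam) ≤ Jiso (d / 2) lam T := by
    unfold Jiso
    rw [finsum_mem_eq_finite_toFinset_sum _ (isolated_finite _ T)]
    refine Finset.sum_le_sum_of_subset_of_nonneg ?_ fun s _ _ => by positivity
    intro s hs
    rw [Pool.Agent.Q97.UM.mem_ZI_iff (by linarith) hd1] at hs
    obtain ⟨g1, g2, g3, g4, g5, g6⟩ := hs
    rw [Set.Finite.mem_toFinset]
    refine ⟨⟨⟨g4, by rw [g1]; norm_num, by rw [g1]; norm_num, by linarith, by linarith⟩, g1, g5⟩, ?_⟩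
    intro ρ r1 r2 r3 r4
    refine le_trans ?_ (g6 ρ r1 r2 r3 r4)
    rw [div_le_div_iff₀ (by linarith) hL0]
    have : Real.log (T / 2) ≤ Real.log T := by rw [hLL']; linarith
    nlinarith
  refine le_trans ?_ (h5.trans hsub)
  -- comparison of the logarithms
  have hq : (lam + 1) ^ 2 ≤ (A + 1) ^ 2 := by
    have := abs_le.1 hlam
    nlinarith
  have h6 : Real.log T ^ ((lam + 1) ^ 2) ≤ K * Real.log (T / 2) ^ ((lam + 1) ^ 2) := by
    calc Real.log T ^ ((lam + 1) ^ 2) ≤ (2 * Real.log (T / 2)) ^ ((lam + 1) ^ 2) :=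
          Real.rpow_le_rpow (by linarith) (by linarith) (sq_nonneg _)
      _ = 2 ^ ((lam + 1) ^ 2) * Real.log (T / 2) ^ ((lam + 1) ^ 2) := Real.mul_rpow (by norm_num) hL0.le
      _ ≤ _ := by
        refine mul_le_mul_of_nonneg_right ?_ (Real.rpow_nonneg hL0.le _)
        exact Real.rpow_le_rpow_of_exponent_le (by norm_num) hq
  calc c / (2 * K) * (T * Real.log T ^ ((lam + 1) ^ 2)) ≤
        c / (2 * K) * (T * (K * Real.log (T / 2) ^ ((lam + 1) ^ 2))) := by gcongr
    _ = c * (T / 2) * Real.log (T / 2) ^ ((lam + 1) ^ 2) := by field_simp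

lemma Jcrit_mono (lam : ℝ) {T T' : ℝ} (h : T ≤ T') : Jcrit lam T ≤ Jcrit lam T' := by
  unfold Jcrit
  rw [finsum_mem_eq_finite_toFinset_sum _ (critSimple_finite T),
    finsum_mem_eq_finite_toFinset_sum _ (critSimple_finite T')]
  refine Finset.sum_le_sum_of_subset_of_nonneg ?_ fun s _ _ => by positivity
  intro s hs
  rw [Set.Finite.mem_toFinset] at hs ⊢
  obtain ⟨⟨h1, h2, h3, h4, h5⟩, h6, h7⟩ := hs
  exact ⟨⟨h1, h2, h3, h4, h5.trans h⟩, h6, h7⟩

open Classical in
lemma Jcrit_step (lam : ℝ) {T : ℝ} (hT : 1 ≤ T) : Jcrit lam (2 * T) ≤ Jcrit lam T +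
    ∑ s ∈ (H370.Zf riemannZeta T (2 * T)).filter (fun s => s.re = 1 / 2), ‖deriv riemannZeta s‖ ^ (2 * lam) := by
  unfold Jcrit
  rw [finsum_mem_eq_finite_toFinset_sum _ (critSimple_finite T),
    finsum_mem_eq_finite_toFinset_sum _ (critSimple_finite (2 * T))]
  have hsub : (critSimple_finite (2 * T)).toFinset ⊆ (critSimple_finite T).toFinset ∪
      (H370.Zf riemannZeta T (2 * T)).filter (fun s => s.re = 1 / 2) := by
    intro s hs
    rw [Set.Finite.mem_toFinset] at hs
    rw [Finset.mem_union, Set.Finite.mem_toFinset, Finset.mem_filter]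
    obtain ⟨⟨h1, h2, h3, h4, h5⟩, h6, h7⟩ := hs
    rcases le_or_gt s.im T with h | h
    · exact Or.inl ⟨⟨h1, h2, h3, h4, h⟩, h6, h7⟩
    · exact Or.inr ⟨(H370.mem_Zf H370.good_zeta hT).mpr ⟨h2, h3, h, h5, h1⟩, h6⟩
  refine (Finset.sum_le_sum_of_subset_of_nonneg hsub fun s _ _ => by positivity).trans ?_
  have h1 := Finset.sum_union_inter (s₁ := (critSimple_finite T).toFinset)
    (s₂ := (H370.Zf riemannZeta T (2 * T)).filter (fun s => s.re = 1 / 2))
    (f := fun s => ‖deriv riemannZeta s‖ ^ (2 * lam))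
  have h2 : 0 ≤ ∑ s ∈ (critSimple_finite T).toFinset ∩
      (H370.Zf riemannZeta T (2 * T)).filter (fun s => s.re = 1 / 2), ‖deriv riemannZeta s‖ ^ (2 * lam) :=
    Finset.sum_nonneg fun s _ => by positivity
  linarith

/-- The upper bound. -/
theorem upper {lam : ℝ} (h0 : 0 < lam) (h2 : lam < 1) : ∃ C : ℝ, 0 < C ∧ ∃ T₀ : ℝ, ∀ T : ℝ, T₀ ≤ T →
    Jcrit lam T ≤ C * (T * Real.log T ^ ((lam + 1) ^ 2)) := by
  obtain ⟨C, hC, hU⟩ := Pool.Agent.Q97.UM.J_up h0 h2
  rw [Filter.eventually_atTop] at hU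
  obtain ⟨T1, hT1⟩ := hU
  set T0 := max T1 3 with hT0
  have hT03 : 3 ≤ T0 := le_max_right _ _
  have hT0' : T1 ≤ T0 := le_max_left _ _
  set p : ℝ := (lam + 1) ^ 2 with hp
  have hp0 : 0 < p := by positivity
  have hind : ∀ n : ℕ, ∀ T : ℝ, T0 ≤ T → T ≤ 2 ^ n * (2 * T0) →
      Jcrit lam T ≤ Jcrit lam (2 * T0) + C * (T * Real.log T ^ p) := by
    intro n
    induction n with
    | zero =>
      intro T hT hT'
      rw [pow_zero, one_mul] at hT'
      have h1 := Jcrit_mono lam hT'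
      have h3 : 0 ≤ C * (T * Real.log T ^ p) :=
        mul_nonneg hC (mul_nonneg (by linarith) (Real.rpow_nonneg (Real.log_nonneg (by linarith)) _))
      linarith
    | succ n ih =>
      intro T hT hT'
      rcases le_or_gt T (2 * T0) with h | h
      · have h1 := Jcrit_mono lam h
        have h3 : 0 ≤ C * (T * Real.log T ^ p) :=
          mul_nonneg hC (mul_nonneg (by linarith) (Real.rpow_nonneg (Real.log_nonneg (by linarith)) _))
        linarith
      · have hh : T0 ≤ T / 2 := by linarith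
        have h1 := ih (T / 2) hh (by rw [pow_succ] at hT'; linarith)
        have h3 := Jcrit_step lam (show 1 ≤ T / 2 by linarith)
        have h4 := hT1 (T / 2) (hT0'.trans hh)
        have e : 2 * (T / 2) = T := by ring
        rw [e] at h3 h4
        have h5 : Real.log (T / 2) ^ p ≤ Real.log T ^ p :=
          Real.rpow_le_rpow (Real.log_nonneg (by linarith)) (Real.log_le_log (by linarith) (by linarith)) hp0.le
        have h6 : T / 2 * Real.log (T / 2) ^ p ≤ T / 2 * Real.log T ^ p :=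
          mul_le_mul_of_nonneg_left h5 (by linarith)
        have h7 : C * (T / 2 * Real.log (T / 2) ^ p) ≤ C * (T / 2 * Real.log T ^ p) :=
          mul_le_mul_of_nonneg_left h6 hC
        have h8 : C * (T / 2) * Real.log (T / 2) ^ p = C * (T / 2 * Real.log (T / 2) ^ p) := by ring
        have h9 : C * (T / 2 * Real.log T ^ p) + C * (T / 2 * Real.log T ^ p) = C * (T * Real.log T ^ p) := by ring
        linarith
  refine ⟨C + 1, by positivity, ?_⟩
  rw [← Filter.eventually_atTop]
  have hconst : ∀ᶠ T : ℝ in atTop, Jcrit lam (2 * T0) ≤ T := eventually_ge_atTop _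
  filter_upwards [hconst, Real.tendsto_log_atTop.eventually_ge_atTop 1, eventually_ge_atTop T0] with
    T h1 h4 h5
  have hT0p : 0 < T := by linarith
  obtain ⟨n, hn⟩ := pow_unbounded_of_one_lt (T / (2 * T0)) (show (1:ℝ) < 2 by norm_num)
  have h6 := hind n T h5 (by
    rw [div_lt_iff₀ (by linarith)] at hn
    exact hn.le)
  have h7 : 1 ≤ Real.log T ^ p := Real.one_le_rpow h4 hp0.le
  have h8 : T ≤ T * Real.log T ^ p := by nlinarith
  have h9 : (C + 1) * (T * Real.log T ^ p) = C * (T * Real.log T ^ p) + T * Real.log T ^ p := by ring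
  rw [h9]
  linarith

/-- The sharp lower bound for all real exponents, uniformly in bounded sets, over the isolated simple zeros on the critical
line; with the simple zeros hypothesis it is the lower bound of the question. For `0 < lam < 1` the order of the sum over the
simple zeros on the critical line is exactly `T (log T) ^ ((lam + 1) ^ 2)`. -/
theorem result :
    (∃ d : ℝ, 0 < d ∧ ∀ A : ℝ, 0 < A → ∃ c : ℝ, 0 < c ∧ ∃ T₀ : ℝ, ∀ T : ℝ, T₀ ≤ T → ∀ lam : ℝ, |lam| ≤ A →
      c * (T * Real.log T ^ ((lam + 1) ^ 2)) ≤ Jiso d lam T ∧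
      c * (T * Real.log T ^ ((lam + 1) ^ 2)) ≤ Jcrit lam T ∧
      (SZC → c * (T * Real.log T ^ ((lam + 1) ^ 2)) ≤ J lam T)) ∧
    (∀ lam : ℝ, 0 < lam → lam < 1 → ∃ C : ℝ, 0 < C ∧ ∃ T₀ : ℝ, ∀ T : ℝ, T₀ ≤ T →
      Jcrit lam T ≤ C * (T * Real.log T ^ ((lam + 1) ^ 2))) := by
  refine ⟨?_, fun lam h0 h1 => upper h0 h1⟩
  obtain ⟨d, hd, h⟩ := lower
  refine ⟨d, hd, fun A hA => ?_⟩
  obtain ⟨c, hc, T₀, h1⟩ := h A hA
  refine ⟨c, hc, T₀, fun T hT lam hlam => ?_⟩
  have h2 := h1 T hT lam hlam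
  have h3 := h2.trans (Jcrit_ge d lam T)
  exact ⟨h2, h3, fun _ => h3.trans (J_ge lam T)⟩

end Pool.Agent.Results.MP_69b2e4_nt.ExactOrder
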